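import Pool.Agent.Helper611.UMan

set_option autoImplicit false
set_option linter.unusedSectionVars false
set_option linter.unnecessarySimpa false

/-! The dimension of a triangulated sphere. -/

namespace Q141.Nbr.Dim

open Pool.Agent.Helper611.ZBase Pool.Agent.Helper611.UTop Pool.Agent.Helper611.UInv
  Pool.Agent.Helper611.UMan

variable {V : Type} [Fintype V] [LinearOrder V] {n : ℕ}

/-- The dimension of the complex is at least that of the charts. -/
lemma dim_ge (Δ : Cx V) (hne : (realization Δ).Nonempty)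
    (hch : ∀ x : realization Δ, ∃ c : OpenPartialHomeomorph (realization Δ) (EE n),
      x ∈ c.source) :
    ∃ σ ∈ Δ.faces, n + 1 ≤ σ.card := by
  classical
  by_contra hcon
  push Not at hcon
  obtain ⟨σ, hσ, hmax⟩ := Finset.exists_max_image Δ.faces Finset.card ⟨∅, Δ.empty_mem⟩
  have hcard0 : 0 < σ.card := by
    obtain ⟨u, _, hu1, π, hπ, hπ0⟩ := hne
    have h1 : π ≠ ∅ := by
      rintro rfl
      rw [Finset.sum_eq_zero fun v _ => hπ0 v (Finset.notMem_empty v)] at hu1
      exact zero_ne_one hu1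
    have h2 := Finset.card_pos.2 (Finset.nonempty_iff_ne_empty.2 h1)
    have h3 := hmax π hπ
    omega
  have hcard : σ.card < n + 1 := hcon σ hσ
  obtain ⟨a, ha⟩ : ∃ a, σ.card = a + 1 := ⟨σ.card - 1, by omega⟩
  obtain ⟨v1, hv1⟩ : σ.Nonempty := Finset.card_pos.1 (by omega)
  have hcard1 : (σ.erase v1).card = a := by rw [Finset.card_erase_of_mem hv1]; omega
  let kk : Fin a ≃ (σ.erase v1) := (finCongr hcard1.symm).trans (σ.erase v1).equivFin.symm
  let k : Fin a → V := fun i => (kk i).1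
  have hk1 : ∀ i, k i ∈ σ.erase v1 := fun i => (kk i).2
  have hkinj : Function.Injective k := Subtype.val_injective.comp kk.injective
  have hksurj : ∀ v ∈ σ.erase v1, ∃ i, k i = v := by
    intro v hv
    refine ⟨kk.symm ⟨v, hv⟩, ?_⟩
    show (kk (kk.symm ⟨v, hv⟩)).1 = v
    rw [Equiv.apply_symm_apply]
  -- the parametrisation of the simplex
  let P : EE a → (V → ℝ) := fun w v =>
    ∑ i, w i * (if k i = v then 1 else 0) + (1 - ∑ i, w i) * (if v1 = v then 1 else 0)
  have hPk : ∀ w i, P w (k i) = w i := by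
    intro w i
    show ∑ j, w j * (if k j = k i then 1 else 0) + (1 - ∑ i, w i) * (if v1 = k i then 1 else 0) = _
    rw [if_neg (fun h : v1 = k i => (Finset.mem_erase.1 (hk1 i)).1 h.symm), mul_zero, add_zero,
      Finset.sum_eq_single i]
    · rw [if_pos rfl, mul_one]
    · intro j _ hj
      rw [if_neg (fun h => hj (hkinj h)), mul_zero]
    · intro h
      exact absurd (Finset.mem_univ _) h
  have hP1 : ∀ w, P w v1 = 1 - ∑ i, w i := by
    intro w
    show ∑ j, w j * (if k j = v1 then 1 else 0) + (1 - ∑ i, w i) * (if v1 = v1 then 1 else 0) = _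
    rw [if_pos rfl, mul_one, Finset.sum_eq_zero, zero_add]
    intro j _
    rw [if_neg (fun h : k j = v1 => (Finset.mem_erase.1 (hk1 j)).1 h), mul_zero]
  have hP0 : ∀ w v, v ∉ σ → P w v = 0 := by
    intro w v hv
    show ∑ j, w j * (if k j = v then 1 else 0) + (1 - ∑ i, w i) * (if v1 = v then 1 else 0) = _
    rw [if_neg (fun h : v1 = v => hv (h ▸ hv1)), mul_zero, add_zero]
    refine Finset.sum_eq_zero fun j _ => ?_
    rw [if_neg (fun h : k j = v => hv (h ▸ Finset.mem_of_mem_erase (hk1 j))), mul_zero]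
  have hPsum : ∀ w, ∑ v, P w v = 1 := by
    intro w
    have e1 : ∑ v, P w v = ∑ v ∈ σ, P w v :=
      (Finset.sum_subset (Finset.subset_univ _) fun v _ hv => hP0 w v hv).symm
    rw [e1, ← Finset.add_sum_erase _ _ hv1, hP1]
    have e2 : ∑ v ∈ σ.erase v1, P w v = ∑ i, w i := by
      rw [← Finset.sum_coe_sort (σ.erase v1) (fun v => P w v)]
      rw [← Equiv.sum_comp kk (fun v : σ.erase v1 => P w v.1)]
      exact Finset.sum_congr rfl fun i _ => hPk w i
    rw [e2]
    ring
  have hPc : Continuous P := by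
    refine continuous_pi fun v => ?_
    show Continuous fun w : EE a =>
      ∑ i, w i * (if k i = v then 1 else 0) + (1 - ∑ i, w i) * (if v1 = v then 1 else 0)
    fun_prop
  -- the open simplex
  let I : Set (EE a) := {w | (∀ i, 0 < w i) ∧ ∑ i, w i < 1}
  have hI : IsOpen I := by
    have : I = (⋂ i, {w : EE a | 0 < w i}) ∩ {w | ∑ i, w i < 1} := by
      ext w
      simp only [I, Set.mem_ofPred_eq, Set.mem_inter_iff, Set.mem_iInter]
    rw [this]
    refine (isOpen_iInter_of_finite fun i => ?_).inter ?_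
    · exact isOpen_lt continuous_const (by fun_prop)
    · exact isOpen_lt (by fun_prop) continuous_const
  have hPpos : ∀ w ∈ I, ∀ v ∈ σ, 0 < P w v := by
    intro w hw v hv
    by_cases h : v = v1
    · rw [h, hP1]
      linarith [hw.2]
    · obtain ⟨i, rfl⟩ := hksurj v (Finset.mem_erase.2 ⟨h, hv⟩)
      rw [hPk]
      exact hw.1 i
  have hPcell : ∀ w ∈ I, P w ∈ cell σ := by
    intro w hw
    refine ⟨fun v => ?_, hPsum w, hP0 w⟩
    by_cases hv : v ∈ σ
    · exact (hPpos w hw v hv).le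
    · exact (hP0 w v hv).ge
  have hPX : ∀ w ∈ I, P w ∈ realization Δ := fun w hw => cell_sub Δ σ hσ (hPcell w hw)
  -- points of the realisation that are positive on `σ`
  let Q : (V → ℝ) → EE a := fun u => WithLp.toLp 2 (fun i => u (k i))
  have hQc : Continuous Q := by
    refine (PiLp.continuous_toLp 2 _).comp ?_
    exact continuous_pi fun i => continuous_apply _
  have hQP : ∀ w, Q (P w) = w := by
    intro w
    ext i
    exact hPk w i
  have hPQ : ∀ u ∈ realization Δ, (∀ v ∈ σ, 0 < u v) → Q u ∈ I ∧ P (Q u) = u := by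
    rintro u ⟨hu0, hu1, π, hπ, hπ0⟩ hpos
    have h1 : σ ⊆ π := by
      intro v hv
      by_contra h
      exact absurd (hπ0 v h) (ne_of_gt (hpos v hv))
    have h2 : σ = π := Finset.eq_of_subset_of_card_le h1 (hmax π hπ)
    subst h2
    have hsum : ∑ i, u (k i) = 1 - u v1 := by
      have e1 : ∑ v, u v = ∑ v ∈ σ, u v :=
        (Finset.sum_subset (Finset.subset_univ _) fun v _ hv => hπ0 v hv).symm
      rw [← Finset.add_sum_erase _ _ hv1] at e1
      have e2 : ∑ v ∈ σ.erase v1, u v = ∑ i, u (k i) := by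
        rw [← Finset.sum_coe_sort (σ.erase v1) (fun v => u v)]
        rw [← Equiv.sum_comp kk (fun v : σ.erase v1 => u v.1)]
      rw [← e2]
      linarith
    refine ⟨⟨fun i => hpos _ (Finset.mem_of_mem_erase (hk1 i)), ?_⟩, ?_⟩
    · show ∑ i, u (k i) < 1
      rw [hsum]
      linarith [hpos v1 hv1]
    · funext v
      by_cases hv : v ∈ σ
      · by_cases h : v = v1
        · rw [h, hP1]
          show 1 - ∑ i, u (k i) = u v1
          rw [hsum]
          ring
        · obtain ⟨i, rfl⟩ := hksurj v (Finset.mem_erase.2 ⟨h, hv⟩)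
          rw [hPk]
      · rw [hP0 _ v hv, hπ0 v hv]
  -- the start point
  obtain ⟨x, hx, hxp⟩ := exists_bary σ ⟨v1, hv1⟩
  obtain ⟨c, hc⟩ := hch ⟨x, cell_sub Δ σ hσ hx⟩
  obtain ⟨hQx, hPQx⟩ := hPQ x (cell_sub Δ σ hσ hx) hxp
  -- openness of `P`
  have hPopen : ∀ O ⊆ I, IsOpen O → IsOpen {u : realization Δ | ∃ w ∈ O, P w = u.1} := by
    intro O hOI hO
    have h1 : {u : realization Δ | ∃ w ∈ O, P w = u.1} =
        {u : realization Δ | (∀ v ∈ σ, 0 < u.1 v) ∧ Q u.1 ∈ O} := by
      ext u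
      constructor
      · rintro ⟨w, hw, hwu⟩
        rw [Set.mem_ofPred_eq, ← hwu, hQP]
        exact ⟨hPpos w (hOI hw), hw⟩
      · rintro ⟨h2, h3⟩
        exact ⟨Q u.1, h3, (hPQ u.1 u.2 h2).2⟩
    rw [h1]
    have h2 : {u : realization Δ | (∀ v ∈ σ, 0 < u.1 v) ∧ Q u.1 ∈ O} =
        (⋂ v ∈ σ, {u : realization Δ | 0 < u.1 v}) ∩ {u : realization Δ | Q u.1 ∈ O} := by
      ext u
      simp only [Set.mem_ofPred_eq, Set.mem_inter_iff, Set.mem_iInter]
    rw [h2]
    refine IsOpen.inter ?_ ?_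
    · refine isOpen_biInter_finset fun v _ => ?_
      exact isOpen_lt continuous_const ((continuous_apply v).comp continuous_subtype_val)
    · exact hO.preimage (hQc.comp continuous_subtype_val)
  -- the composite
  let F : EE a → realization Δ := fun w => if h : w ∈ I then ⟨P w, hPX w h⟩ else
    ⟨x, cell_sub Δ σ hσ hx⟩
  have hF : ∀ w (h : w ∈ I), F w = ⟨P w, hPX w h⟩ := fun w h => dif_pos h
  have hFc : ContinuousOn F I := by
    rw [Topology.IsInducing.subtypeVal.continuousOn_iff]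
    refine hPc.continuousOn.congr fun w hw => ?_
    show (F w).1 = P w
    rw [hF w hw]
  have hFinj : ∀ w ∈ I, ∀ w' ∈ I, F w = F w' → w = w' := by
    intro w hw w' hw' h
    rw [hF w hw, hF w' hw'] at h
    have h1 : P w = P w' := congrArg Subtype.val h
    rw [← hQP w, h1, hQP]
  have hFim : ∀ O ⊆ I, F '' O = {u : realization Δ | ∃ w ∈ O, P w = u.1} := by
    intro O hO
    ext u
    constructor
    · rintro ⟨w, hw, rfl⟩
      exact ⟨w, hw, by rw [hF w (hO hw)]⟩
    · rintro ⟨w, hw, hwu⟩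
      exact ⟨w, hw, by rw [hF w (hO hw)]; exact Subtype.ext hwu⟩
  let W0 : Set (EE a) := I ∩ F ⁻¹' c.source
  have hW0 : IsOpen W0 := hFc.isOpen_inter_preimage hI c.open_source
  have hW0I : W0 ⊆ I := Set.inter_subset_left
  have hcF : ContinuousOn (fun w => c (F w)) W0 :=
    c.continuousOn.comp (hFc.mono hW0I) fun w hw => hw.2
  have hcopen : ∀ O ⊆ W0, IsOpen O → IsOpen ((fun w => c (F w)) '' O) := by
    intro O hO hO2
    have h1 : (fun w => c (F w)) '' O = c '' (F '' O) := (Set.image_image _ _ _).symm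
    rw [h1]
    refine c.isOpen_image_of_subset_source ?_ ?_
    · rw [hFim O (hO.trans hW0I)]
      exact hPopen O (hO.trans hW0I) hO2
    · rintro u ⟨w, hw, rfl⟩
      exact (hO hw).2
  have hQx0 : Q x ∈ W0 := by
    refine ⟨hQx, ?_⟩
    show F (Q x) ∈ c.source
    rw [hF _ hQx]
    have : (⟨P (Q x), hPX _ hQx⟩ : realization Δ) = ⟨x, cell_sub Δ σ hσ hx⟩ :=
      Subtype.ext hPQx
    rw [this]
    exact hc
  let g : EE n → EE a := fun z => Q (c.symm z).1
  have hgF : ∀ w ∈ W0, g (c (F w)) = w := by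
    intro w hw
    show Q (c.symm (c (F w))).1 = w
    rw [c.left_inv hw.2, hF w hw.1]
    exact hQP w
  have himg : ∀ z ∈ (fun w => c (F w)) '' W0, z ∈ c.target := by
    rintro z ⟨w, hw, rfl⟩
    exact c.map_source hw.2
  refine inv_dim a n (by omega) ((fun w => c (F w)) '' W0) (hcopen W0 (Set.Subset.refl _) hW0)
    (c (F (Q x))) ⟨Q x, hQx0, rfl⟩ g ?_ ?_ ?_
  · refine (hQc.comp continuous_subtype_val).comp_continuousOn ?_
    exact c.continuousOn_symm.mono himg
  · rintro _ ⟨w, hw, rfl⟩ _ ⟨w', hw', rfl⟩ h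
    have h1 : g (c (F w)) = g (c (F w')) := h
    rw [hgF w hw, hgF w' hw'] at h1
    rw [h1]
  · intro O hO hO2
    have h1 : g '' O = W0 ∩ (fun w => c (F w)) ⁻¹' O := by
      ext w
      constructor
      · rintro ⟨z, hz, rfl⟩
        obtain ⟨w, hw, rfl⟩ := hO hz
        have h2 : g (c (F w)) = w := hgF w hw
        show g (c (F w)) ∈ _
        rw [h2]
        exact ⟨hw, hz⟩
      · rintro ⟨hw, hw2⟩
        exact ⟨c (F w), hw2, hgF w hw⟩
    rw [h1]
    exact hcF.isOpen_inter_preimage hW0 hO2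

/-- A simplicial complex whose realisation is homeomorphic to the unit sphere of dimension `n` has
dimension `n`. -/
theorem sphere_dim (Δ : Cx V)
    (h : Nonempty (realization Δ ≃ₜ Metric.sphere (0 : EuclideanSpace ℝ (Fin (n + 1))) 1)) :
    (∀ σ ∈ Δ.faces, σ.card ≤ n + 1) ∧ ∃ σ ∈ Δ.faces, σ.card = n + 1 := by
  obtain ⟨f⟩ := h
  have : Fact (Module.finrank ℝ (EuclideanSpace ℝ (Fin (n + 1))) = n + 1) :=
    ⟨finrank_euclideanSpace_fin⟩
  have hch : ∀ x : realization Δ, ∃ c : OpenPartialHomeomorph (realization Δ) (EE n),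
      x ∈ c.source := by
    intro x
    refine ⟨f.toOpenPartialHomeomorph.trans (chartAt (EuclideanSpace ℝ (Fin n)) (f x)), ?_⟩
    rw [OpenPartialHomeomorph.trans_source]
    refine ⟨Set.mem_univ _, ?_⟩
    show f x ∈ (chartAt (EuclideanSpace ℝ (Fin n)) (f x)).source
    exact mem_chart_source _ _
  have hle := dim_le Δ (n := n) (H := EE n) id Topology.IsEmbedding.id Set.univ isOpen_univ
    (fun z _ => ⟨z, rfl⟩) (fun U _ hU => by
      obtain ⟨a, ha⟩ := hU
      exact ⟨a, ha, trivial⟩) hch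
  have hne : (realization Δ).Nonempty := by
    obtain ⟨z, hz⟩ : ∃ z : EuclideanSpace ℝ (Fin (n + 1)), z ∈ Metric.sphere 0 1 :=
      ⟨EuclideanSpace.single 0 1, by simp⟩
    exact ⟨(f.symm ⟨z, hz⟩).1, (f.symm ⟨z, hz⟩).2⟩
  obtain ⟨σ, hσ, hσ2⟩ := dim_ge Δ hne hch
  exact ⟨hle, σ, hσ, le_antisymm (hle σ hσ) hσ2⟩

end Q141.Nbr.Dim
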