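import Pool.Agent.Q141.Nbr.Miss
import Pool.Agent.H252R2.Top2

set_option autoImplicit false
set_option linter.unusedSectionVars false

/-! The number of missing `(k+1)`-faces of a sphere of dimension `2k`. -/

namespace Q141.Nbr.Final

open ExteriorAlgebra Pool.Agent.Helper611 Pool.Agent.Helper611.ZBase Pool.Agent.Helper611.KVal
  Pool.Agent.Helper611.KRel
  Pool.Agent.Helper611.UStr Pool.Agent.H252R2.Lef1 Pool.Agent.H252R2.Lef2
  Pool.Agent.H252R2.Lef3 Pool.Agent.H252R2.Lef4 Pool.Agent.H252R2.Lef7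
  Pool.Agent.H252R2.CDNum Pool.Agent.H252R2.Top2 Pool.Agent.H252R2
  Q141.Nbr.Wlp Q141.Nbr.Form Q141.Nbr.Miss

variable {V : Type} [Fintype V] [LinearOrder V]

/-- The general statement: for a sphere of dimension `2k` the difference
`h_{k+1} - h_{k+2} - m_{k+1}` is not one. -/
theorem main (Γ : Cx V) (k : ℕ) (hk : 1 ≤ k) (h : Hyp Γ (2 * k + 1)) :
    hn (2 * k + 1) (fnum Γ) (k + 2) + (mf Γ (k + 2)).card + 1 ≠
      hn (2 * k + 1) (fnum Γ) (k + 1) := by
  classical
  set d := 2 * k + 1 with hd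
  have hd1 : 1 ≤ d := by omega
  obtain ⟨B, hB, hBd⟩ := h.facet
  have hU : d ≤ Fintype.card V := by
    rw [← hBd]
    exact Finset.card_le_univ B
  let q := Lef5.gq V d
  have hq := Lef5.gdet V d
  set p : V → (Fin d → Lef5.KK V d) := fun v => q (some v) with hp
  have hsmall := small_plus Γ d (k + 2) (by omega) h.small
  have hdual' : Dual (fun σ => σ ∈ (plus Γ (k + 2)).faces) p :=
    Lef6.coord_of_gen (plus Γ (k + 2)) q hq hU hsmall
  obtain ⟨φ, hφ'⟩ := UNum.exists_coord (plus Γ (k + 2)) p hsmall hdual'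
  have hφ : Coord Γ p φ := coord_sub Γ (k + 2) φ hφ'
  have hdual : Dual (fun σ => σ ∈ Γ.faces) p :=
    fun σ hσ hc v hv => hdual' σ ((mem_plus Γ (k + 2) σ).2 (Or.inl hσ)) hc v hv
  have hz := Lef6.nz_of_gen Γ q hq hU φ hφ
  have hacy : ∀ (τ : Finset V) (j s : ℕ), j < d →
      AcyP (fun σ => σ ∈ Γ.faces) (⋀[Lef5.KK V d]^s (Fin d → Lef5.KK V d)) τ j :=
    fun τ j s hj => acyP_of_acy Γ τ j (acy_all h hd1 τ j hj)
  have hh := St_hn Γ p φ hφ hdual hacy
  have hsym := fun s hs => hsymm h hd1 s hs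
  have hone : hn d (fnum Γ) d = 1 := by
    have h1 := hsym d le_rfl
    rw [Nat.sub_self, hzero] at h1
    exact h1
  have hl : Lef6.topl Γ p ∈ St Γ p d := by
    obtain ⟨n, hn⟩ : ∃ n, d = n + 1 := ⟨2 * k, hd⟩
    clear_value d
    subst hn
    exact Lef6.topl_St Γ _ φ hφ (fun F _ hc => Lef6.perm_of_gen q hq F hc)
      (fun ρ hρ hc => ridge h ρ hρ (by omega))
  have hl0 : ∀ F ∈ Γ.faces, F.card = d → Lef6.topl Γ p F * perm p F = 1 := by
    intro F hF hc
    unfold Lef6.topl
    rw [if_pos ⟨hF, hc⟩, inv_mul_cancel₀ (Lef6.perm_of_gen q hq F hc)]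
  have hcardF : (Fintype.card (Fc Γ d) : ℤ) = fnum Γ d := by
    unfold fnum Fc
    rw [Fintype.card_subtype]
    congr 2
    ext σ
    simp
  obtain ⟨β, hA⟩ := exists_alg hφ hz (fun t => Module.finrank (Lef5.KK V d) (St Γ p t))
    (fun t _ => le_rfl) (by
      have h1 := sum_hn d (fnum Γ)
      rw [← hcardF] at h1
      have h2 : ∑ t ∈ Finset.range (d + 1), hn d (fnum Γ) t =
          ∑ t ∈ Finset.range (d + 1), (Module.finrank (Lef5.KK V d) (St Γ p t) : ℤ) :=
        Finset.sum_congr rfl fun t ht => (hh t (by have := Finset.mem_range.1 ht; omega)).symm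
      rw [h2] at h1
      exact_mod_cast h1)
    (by
      intro t ht
      have h1 := hsym t ht
      rw [← hh t ht, ← hh (d - t) (by omega)] at h1
      exact_mod_cast h1)
    (by
      have h1 := hone
      rw [← hh d le_rfl] at h1
      exact_mod_cast h1)
    (Lef6.topl Γ p) hl hl0 (Lef5.gb V d) (Lef5.gen V d) k rfl
  have hdim : Module.finrank (Lef5.KK V d) (St Γ p (k + 1)) =
      Module.finrank (Lef5.KK V d) (St Γ p k) := by
    have h1 := hsym (k + 1) (by omega)
    have e1 : d - (k + 1) = k := by omega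
    rw [e1, ← hh (k + 1) (by omega), ← hh k (by omega)] at h1
    exact_mod_cast h1
  have hmain := codim_ne_one Γ k φ hφ' (Lef5.gb V d) β hA hdim
  have hplus := St_plus Γ (k + 2) (by omega) φ hφ' hdual' hacy (k + 2) le_rfl
  rw [hn_plus] at hplus
  intro hcon
  apply hmain
  rw [← hplus, ← hh (k + 1) (by omega)] at hcon
  exact_mod_cast hcon

/-- the h-numbers of a complex with all small faces -/
lemma hn_choose : ∀ t r d : ℕ, t ≤ d →
    hn d (fun j => ((d + r).choose j : ℤ)) t = ((r + t - 1).choose t : ℤ) := by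
  intro t
  induction t with
  | zero =>
    intro r d _
    unfold hn
    simp
  | succ t iht =>
    intro r
    induction r with
    | zero =>
      intro d hd
      have h1 : hn d (fun j => ((d + 0).choose j : ℤ)) (t + 1) =
          (-1 : ℤ) ^ (t + 1) * (d.choose (t + 1) : ℤ) *
            ∑ m ∈ Finset.range (t + 1 + 1), (-1 : ℤ) ^ m * ((t + 1).choose m : ℤ) := by
        unfold hn
        rw [Finset.mul_sum]
        refine Finset.sum_congr rfl fun j hj => ?_
        have hj' := Finset.mem_range.1 hj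
        have h2 := Nat.choose_mul (n := d) (show j ≤ t + 1 by omega)
        have h3 : (d.choose (t + 1) : ℤ) * ((t + 1).choose j : ℤ) =
            (d.choose j : ℤ) * ((d - j).choose (t + 1 - j) : ℤ) := by exact_mod_cast h2
        have h4 : (-1 : ℤ) ^ (t + 1 - j) = (-1 : ℤ) ^ (t + 1) * (-1) ^ j := by
          have h5 : t + 1 + j = (t + 1 - j) + 2 * j := by omega
          rw [← pow_add, h5, pow_add, pow_mul]
          norm_num
        rw [h4, add_zero]
        linear_combination (-((-1 : ℤ) ^ (t + 1) * (-1) ^ j)) * h3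
      rw [h1, Int.alternating_sum_range_choose_of_ne (Nat.succ_ne_zero t), mul_zero]
      have h2 : (0 + (t + 1) - 1).choose (t + 1) = 0 := Nat.choose_eq_zero_of_lt (by omega)
      rw [h2]
      rfl
    | succ r ihr =>
      intro d hd
      obtain ⟨d', rfl⟩ : ∃ d', d = d' + 1 := ⟨d - 1, by omega⟩
      have key : ∀ N : ℕ, hn (d' + 1) (fun j => ((N + 1).choose j : ℤ)) (t + 1) =
          hn (d' + 1) (fun j => (N.choose j : ℤ)) (t + 1) + hn d' (fun j => (N.choose j : ℤ)) t := by
        intro N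
        unfold hn
        rw [Finset.sum_range_succ', Finset.sum_range_succ' _ (t + 1)]
        have h1 : ∑ x ∈ Finset.range (t + 1), (-1 : ℤ) ^ (t + 1 - (x + 1)) *
            (((d' + 1 - (x + 1)).choose (t + 1 - (x + 1)) : ℕ) : ℤ) * ((N + 1).choose (x + 1) : ℤ) =
            ∑ x ∈ Finset.range (t + 1), (-1 : ℤ) ^ (t + 1 - (x + 1)) *
            (((d' + 1 - (x + 1)).choose (t + 1 - (x + 1)) : ℕ) : ℤ) * (N.choose (x + 1) : ℤ) +
            ∑ x ∈ Finset.range (t + 1), (-1 : ℤ) ^ (t - x) *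
            (((d' - x).choose (t - x) : ℕ) : ℤ) * (N.choose x : ℤ) := by
          rw [← Finset.sum_add_distrib]
          refine Finset.sum_congr rfl fun x _ => ?_
          have e1 : t + 1 - (x + 1) = t - x := by omega
          have e2 : d' + 1 - (x + 1) = d' - x := by omega
          rw [e1, e2, Nat.choose_succ_succ' N x]
          push_cast
          ring
        rw [h1]
        simp only [Nat.choose_zero_right]
        ring
      have h1 := key (d' + 1 + r)
      have h2 := ihr (d' + 1) hd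
      have h3 := iht (r + 1) d' (by omega)
      have e1 : d' + (r + 1) = d' + 1 + r := by omega
      rw [e1] at h3
      have e2 : d' + 1 + (r + 1) = d' + 1 + r + 1 := by omega
      rw [e2, h1, h2, h3]
      have e3 : r + 1 + (t + 1) - 1 = (r + (t + 1) - 1) + 1 := by omega
      have e4 : r + 1 + t - 1 = r + (t + 1) - 1 := by omega
      rw [e3, e4, Nat.choose_succ_succ' (r + (t + 1) - 1) t]
      push_cast
      ring

/-- The statement for neighborly spheres. -/
theorem neighborly (Γ : Cx V) (k : ℕ) (hk : 1 ≤ k) (h : Hyp Γ (2 * k + 1))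
    (hn : ∀ σ : Finset V, σ.card = k → σ ∈ Γ.faces) (hcard : 2 * k + 2 ≤ Fintype.card V) :
    (mf Γ (k + 2)).card + 1 ≠ (Fintype.card V - k - 3).choose k := by
  classical
  intro hcon
  apply main Γ k hk h
  have hall : ∀ j, j ≤ k → fnum Γ j = ((Fintype.card V).choose j : ℤ) := by
    intro j hj
    unfold fnum
    rw [← Finset.card_univ, ← Finset.card_powersetCard]
    congr 2
    ext σ
    rw [Finset.mem_filter, Finset.mem_powersetCard]
    refine ⟨fun h => ⟨Finset.subset_univ _, h.2⟩, fun h => ⟨?_, h.2⟩⟩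
    obtain ⟨σ', h1, h2⟩ := Finset.exists_superset_card_eq (s := σ) (n := k) (by omega) (by omega)
    exact Γ.down σ' (hn σ' h2) σ h1
  obtain ⟨r, hr⟩ : ∃ r, Fintype.card V = 2 * k + 1 + r := ⟨Fintype.card V - (2 * k + 1), by omega⟩
  have hhn : ∀ t, t ≤ k → CDNum.hn (2 * k + 1) (fnum Γ) t = ((r + t - 1).choose t : ℤ) := by
    intro t ht
    rw [← hn_choose t r (2 * k + 1) (by omega)]
    unfold CDNum.hn
    refine Finset.sum_congr rfl fun j hj => ?_
    have hj' := Finset.mem_range.1 hj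
    rw [hall j (by omega), hr]
  have hs1 := hsymm h (by omega) (k + 1) (by omega)
  have hs2 := hsymm h (by omega) (k + 2) (by omega)
  have e1 : 2 * k + 1 - (k + 1) = k := by omega
  have e2 : 2 * k + 1 - (k + 2) = k - 1 := by omega
  rw [hs1, hs2, e1, e2, hhn k le_rfl, hhn (k - 1) (by omega)]
  obtain ⟨k', rfl⟩ : ∃ k', k = k' + 1 := ⟨k - 1, by omega⟩
  obtain ⟨r', rfl⟩ : ∃ r', r = r' + 1 := ⟨r - 1, by omega⟩
  have e3 : Fintype.card V - (k' + 1) - 3 = r' + k' := by omega
  have e4 : r' + 1 + (k' + 1 - 1) - 1 = r' + k' := by omega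
  have e5 : r' + 1 + (k' + 1) - 1 = r' + k' + 1 := by omega
  have e6 : k' + 1 - 1 = k' := by omega
  rw [e3] at hcon
  rw [e4, e5, e6, Nat.choose_succ_succ' (r' + k') k', ← hcon]
  push_cast
  ring

end Q141.Nbr.Final
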