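import Pool.Agent.Q141.Nbr.Wlp

set_option autoImplicit false
set_option linter.unusedSectionVars false

/-! The symmetric form on the stresses of degree `k + 1` of a sphere of dimension `2k`. -/

namespace Q141.Nbr.Form

open Pool.Agent.Helper611 Pool.Agent.Helper611.ZBase Pool.Agent.Helper611.KVal
  Pool.Agent.Helper611.UStr Pool.Agent.H252R2.Lef1 Pool.Agent.H252R2.Lef2
  Pool.Agent.H252R2.Lef3 Pool.Agent.H252R2.Lef4 Q141.Nbr.Wlp MvPolynomial

variable {V : Type} [Fintype V] [LinearOrder V] {K : Type} [Field K] {d : ℕ}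
  {Γ : Cx V} {p : V → (Fin d → K)} {φ : Finset V → V → Module.Dual K (Fin d → K)}
  {e : Fin d → K}

/-- the derivative in the direction of the generic linear form -/
noncomputable def Dw (Γ : Cx V) (p : V → (Fin d → K))
    (φ : Finset V → V → Module.Dual K (Fin d → K)) (b : V → K) :
    (Finset V → K) →ₗ[K] (Finset V → K) := ∑ v, b v • D Γ p φ v

lemma Dw_apply (b : V → K) (l : Finset V → K) : Dw Γ p φ b l = ∑ v, b v • D Γ p φ v l := by
  unfold Dw
  rw [LinearMap.sum_apply]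
  rfl

lemma Dw_mem (hφ : Coord Γ p φ) (b : V → K) (s : ℕ) (l : Finset V → K)
    (hl : l ∈ St Γ p (s + 1)) : Dw Γ p φ b l ∈ St Γ p s := by
  rw [Dw_apply]
  exact Submodule.sum_mem _ fun v _ => Submodule.smul_mem _ _ (D_mem hφ s l hl v)

/-- What is needed about the algebra. -/
structure Alg (Γ : Cx V) (p : V → (Fin d → K)) (φ : Finset V → V → Module.Dual K (Fin d → K))
    (k : ℕ) (b : V → K) (β : (Finset V → K) → (Finset V → K) → K) : Prop where
  sym : ∀ x ∈ St Γ p (k + 1), ∀ y ∈ St Γ p (k + 1), β x y = β y x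
  add : ∀ x ∈ St Γ p (k + 1), ∀ x' ∈ St Γ p (k + 1), ∀ y ∈ St Γ p (k + 1),
    β (x + x') y = β x y + β x' y
  smul : ∀ (r : K), ∀ x ∈ St Γ p (k + 1), ∀ y ∈ St Γ p (k + 1), β (r • x) y = r * β x y
  nondeg : ∀ x ∈ St Γ p (k + 1), (∀ y ∈ St Γ p (k + 1), β x y = 0) → x = 0
  inj : ∀ x ∈ St Γ p (k + 1), Dw Γ p φ b x = 0 → x = 0
  adj : ∀ v, ∀ x ∈ St Γ p (k + 1), ∀ x' ∈ St Γ p (k + 1), Dw Γ p φ b x' = D Γ p φ v x →
    ∀ y ∈ St Γ p (k + 1), ∀ y' ∈ St Γ p (k + 1), Dw Γ p φ b y' = D Γ p φ v y →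
      β x' y = β x y'

lemma evx_lin (b : V → K) : evx Γ φ e (∑ v, b v • X v) = ∑ v, b v • xx Γ φ e v := by
  rw [map_sum]
  exact Finset.sum_congr rfl fun v _ => by rw [map_smul, evx_X]

lemma lin_mem (b : V → K) : ∑ v, b v • xx Γ φ e v ∈ NN Γ φ e 1 :=
  Submodule.sum_mem _ fun v _ => Submodule.smul_mem _ _ (xx_mem v)

lemma Dw_ps (hφ : Coord Γ p φ) (b : V → K) (T : Module.Dual K (Rg Γ d K))
    (hT : ∀ x ∈ MM Γ φ e d, T x = 0) (s t : ℕ) (hst : s + (t + 1) = d) (a : Rg Γ d K)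
    (ha : a ∈ NN Γ φ e s) :
    Dw Γ p φ b (ps Γ φ e T (t + 1) a) = ps Γ φ e T t ((∑ v, b v • xx Γ φ e v) * a) := by
  rw [Dw_apply, Finset.sum_mul, map_sum]
  refine Finset.sum_congr rfl fun v _ => ?_
  rw [D_ps hφ T hT s t hst a ha v, smul_mul_assoc, map_smul]

theorem exists_alg [CharP K 2] (hφ : Coord Γ p φ) (hz : Nz Γ φ e) (h : ℕ → ℕ)
    (hst : ∀ t, t ≤ d → Module.finrank K (St Γ p t) ≤ h t)
    (hsum : ∑ t ∈ Finset.range (d + 1), h t = Fintype.card (Fc Γ d))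
    (hsym : ∀ t, t ≤ d → h t = h (d - t)) (hd1 : h d = 1)
    (l : Finset V → K) (hl : l ∈ St Γ p d) (hl0 : ∀ F ∈ Γ.faces, F.card = d → l F * perm p F = 1)
    (b : V → K) (hgen : Gen p b) (k : ℕ) (hk : 2 * k + 1 = d) :
    ∃ β, Alg Γ p φ k b β := by
  classical
  have hl1 : ∀ F ∈ Γ.faces, F.card = d → l F ≠ 0 := by
    intro F h1 h2 h3
    have := hl0 F h1 h2
    rw [h3, zero_mul] at this
    exact zero_ne_one this
  obtain ⟨T, hT, hTl⟩ := exists_deg hφ hz h hst hsum hd1 l hl hl1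
  have hT0 : ∀ F : Fc Γ d, T (xm Γ φ e (ind F.1)) ≠ 0 := fun F => by
    rw [hTl]; exact hl1 F.1 F.2.1 F.2.2
  have hker := ps_ker hφ hz h hst hsum hsym T hT hT0
  have hsurj := ps_surj hφ hz h hst hsum hsym T hT hT0 k (k + 1) (by omega)
  choose! q hqN hq using hsurj
  set L : Rg Γ d K := ∑ v, b v • xx Γ φ e v with hL
  have hLm : L ∈ NN Γ φ e 1 := lin_mem b
  have hwlp : ∀ g ∈ NN Γ φ e k, L * g ∈ NN Γ φ e k → g ∈ MM Γ φ e k := by
    intro g hg hLg
    refine wlp hφ hz h hst hsum hsym l hl0 T hT hTl b hgen k (by omega) g hg ?_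
    rw [evx_lin]
    exact hLg
  have hMM1 : MM Γ φ e (k + 1) = NN Γ φ e k := MM_succ k
  -- products of elements of low degree have degree zero
  have hlow : ∀ x ∈ NN Γ φ e k, ∀ y ∈ NN Γ φ e k, T (x * y) = 0 := by
    intro x hx y hy
    exact mT_van T hT k (k + 1) (by omega) x hx y (by rw [hMM1]; exact hy)
  have hlow2 : ∀ x ∈ MM Γ φ e k, ∀ y ∈ NN Γ φ e k, T (L * x * y) = 0 := by
    intro x hx y hy
    have h1 : L * x * y = (L * y) * x := by ring
    rw [h1]
    refine mT_van T hT (k + 1) k (by omega) _ ?_ x hx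
    rw [add_comm]
    exact NN_mul _ _ _ _ hLm hy
  have hker1 : ∀ a ∈ NN Γ φ e k, ps Γ φ e T (k + 1) a = 0 → a ∈ MM Γ φ e k := fun a ha h0 =>
    hker k (k + 1) (by omega) a ha h0
  have hker2 : ∀ a ∈ NN Γ φ e (k + 1), ps Γ φ e T k a = 0 → a ∈ NN Γ φ e k := fun a ha h0 =>
    hMM1 ▸ hker (k + 1) k (by omega) a ha h0
  have hsubk : ∀ x ∈ NN Γ φ e k, ∀ y ∈ NN Γ φ e k, ps Γ φ e T (k + 1) x = ps Γ φ e T (k + 1) y →
      ∀ w ∈ NN Γ φ e k, T (L * x * w) = T (L * y * w) := by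
    intro x hx y hy hxy w hw
    rw [← sub_eq_zero, ← map_sub]
    have h1 : L * x * w - L * y * w = L * (x - y) * w := by ring
    rw [h1]
    refine hlow2 _ (hker1 _ (Submodule.sub_mem _ hx hy) ?_) w hw
    rw [map_sub, hxy, sub_self]
  refine ⟨fun x y => T (L * q x * q y), ?_, ?_, ?_, ?_, ?_, ?_⟩
  · intro x hx y hy
    show T (L * q x * q y) = T (L * q y * q x)
    congr 1
    ring
  · intro x hx x' hx' y hy
    show T (L * q (x + x') * q y) = T (L * q x * q y) + T (L * q x' * q y)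
    have hxx := Submodule.add_mem _ hx hx'
    rw [hsubk (q (x + x')) (hqN _ hxx) (q x + q x') (Submodule.add_mem _ (hqN _ hx) (hqN _ hx'))
      (by rw [map_add, hq _ hxx, hq _ hx, hq _ hx']) (q y) (hqN _ hy), mul_add, add_mul, map_add]
  · intro r x hx y hy
    show T (L * q (r • x) * q y) = r * T (L * q x * q y)
    have hxx := Submodule.smul_mem _ r hx
    rw [hsubk (q (r • x)) (hqN _ hxx) (r • q x) (Submodule.smul_mem _ _ (hqN _ hx))
      (by rw [map_smul, hq _ hxx, hq _ hx]) (q y) (hqN _ hy), mul_smul_comm, smul_mul_assoc,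
      map_smul, smul_eq_mul]
  · intro x hx h0
    have h1 : L * q x ∈ NN Γ φ e k := by
      have h2 : L * q x ∈ NN Γ φ e (k + 1) := by
        rw [add_comm]
        exact NN_mul _ _ _ _ hLm (hqN _ hx)
      have h3 := pd hφ hz h hst hsum hsym T hT hT0 (k + 1) (by omega) (L * q x)
      rw [hMM1] at h3
      apply h3
      have e1 : d + 1 - (k + 1) = k + 1 := by omega
      rw [e1, hMM1]
      intro w hw
      have h4 := ps_St hφ T hT k (k + 1) (by omega) w hw
      have h5 := h0 _ h4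
      have h6 : T (L * q (ps Γ φ e T (k + 1) w) * q x) = T (L * w * q x) :=
        hsubk _ (hqN _ h4) w hw (hq _ h4) (q x) (hqN _ hx)
      have h7 : w * (L * q x) = L * w * q x := by ring
      rw [h7, ← h6]
      have h8 : L * q (ps Γ φ e T (k + 1) w) * q x = L * q x * q (ps Γ φ e T (k + 1) w) := by ring
      rw [h8]
      exact h5
    have h2 := hwlp _ (hqN _ hx) h1
    rw [← hq _ hx]
    exact ps_zero T hT k (k + 1) (by omega) _ h2
  · intro x hx h0
    rw [← hq _ hx, Dw_ps hφ b T hT k k (by omega) _ (hqN _ hx)] at h0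
    have h1 := hker2 _ (by rw [add_comm]; exact NN_mul _ _ _ _ hLm (hqN _ hx)) h0
    have h2 := hwlp _ (hqN _ hx) h1
    rw [← hq _ hx]
    exact ps_zero T hT k (k + 1) (by omega) _ h2
  · intro v x hx x' hx' hxx y hy y' hy' hyy
    show T (L * q x' * q y) = T (L * q x * q y')
    have key : ∀ x ∈ St Γ p (k + 1), ∀ x' ∈ St Γ p (k + 1),
        Dw Γ p φ b x' = D Γ p φ v x → ∀ y ∈ St Γ p (k + 1),
        T (L * q x' * q y) = T (xx Γ φ e v * q x * q y) := by
      intro x hx x' hx' hxx y hy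
      rw [← sub_eq_zero, ← map_sub]
      have h1 : L * q x' * q y - xx Γ φ e v * q x * q y =
          (L * q x' - xx Γ φ e v * q x) * q y := by ring
      rw [h1]
      refine hlow _ ?_ _ (hqN _ hy)
      refine hker2 _ (Submodule.sub_mem _ ?_ ?_) ?_
      · rw [add_comm]; exact NN_mul _ _ _ _ hLm (hqN _ hx')
      · rw [add_comm]; exact NN_mul _ _ _ _ (xx_mem v) (hqN _ hx)
      · rw [map_sub, ← Dw_ps hφ b T hT k k (by omega) _ (hqN _ hx'),
          ← D_ps hφ T hT k k (by omega) _ (hqN _ hx) v, hq _ hx', hq _ hx, hxx, sub_self]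
    rw [key x hx x' hx' hxx y hy]
    have h2 := key y hy y' hy' hyy x hx
    have h3 : L * q x * q y' = L * q y' * q x := by ring
    rw [h3, h2]
    congr 1
    ring

end Q141.Nbr.Form
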