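import Mathlib

set_option autoImplicit false

/-! A symmetric form and commuting self-adjoint maps. -/

namespace Q141.Nbr.LA

variable {K E : Type*} [Field K] [AddCommGroup E] [Module K E]

/-- two self-adjoint maps which commute on a subspace of codimension one commute -/
lemma comm_of_codim_one [FiniteDimensional K E] (β : E →ₗ[K] E →ₗ[K] K)
    (hsym : ∀ e f, β e f = β f e) (hnd : ∀ e, (∀ f, β e f = 0) → e = 0)
    (M N : E →ₗ[K] E) (hM : ∀ e f, β (M e) f = β e (M f)) (hN : ∀ e f, β (N e) f = β e (N f))
    (W : Submodule K E) (hW : Module.finrank K W + 1 = Module.finrank K E)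
    (hc : ∀ e ∈ W, M (N e) = N (M e)) (e : E) : M (N e) = N (M e) := by
  -- the commutator
  let C : E →ₗ[K] E := M ∘ₗ N - N ∘ₗ M
  have hC : ∀ e, C e = M (N e) - N (M e) := fun e => rfl
  have halt : ∀ e, β (C e) e = 0 := by
    intro e
    rw [hC, map_sub, LinearMap.sub_apply, hM (N e) e, hN (M e) e, hsym (M e) (N e), sub_self]
  have hskew : ∀ e f, β (C e) f = - β (C f) e := by
    intro e f
    have h1 := halt (e + f)
    rw [map_add C, map_add β, LinearMap.add_apply, map_add (β (C e)), map_add (β (C f)), halt e,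
      halt f] at h1
    linear_combination h1
  have hCW : ∀ e ∈ W, C e = 0 := fun e he => by rw [hC, hc e he, sub_self]
  -- a complementary vector
  have hlt : W < ⊤ := by
    rw [lt_top_iff_ne_top]
    intro h
    rw [h, finrank_top] at hW
    omega
  obtain ⟨e0, -, he0⟩ := SetLike.exists_of_lt hlt
  have hsup : W ⊔ Submodule.span K {e0} = ⊤ := by
    apply Submodule.eq_top_of_finrank_eq
    have h1 : W < W ⊔ Submodule.span K {e0} := by
      refine lt_of_le_of_ne le_sup_left fun h => he0 ?_
      rw [h]
      exact Submodule.mem_sup_right (Submodule.mem_span_singleton_self e0)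
    have h2 := Submodule.finrank_lt_finrank_of_lt h1
    have h3 := Submodule.finrank_le (W ⊔ Submodule.span K {e0})
    omega
  have hdec : ∀ f : E, ∃ w ∈ W, ∃ r : K, f = w + r • e0 := by
    intro f
    have : f ∈ W ⊔ Submodule.span K {e0} := by rw [hsup]; trivial
    obtain ⟨w, hw, y, hy, rfl⟩ := Submodule.mem_sup.1 this
    obtain ⟨r, rfl⟩ := Submodule.mem_span_singleton.1 hy
    exact ⟨w, hw, r, rfl⟩
  have hCe0 : C e0 = 0 := by
    apply hnd
    intro f
    obtain ⟨w, hw, r, rfl⟩ := hdec f
    rw [map_add, map_smul, halt, smul_zero, add_zero, hskew, hCW w hw, map_zero,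
      LinearMap.zero_apply, neg_zero]
  obtain ⟨w, hw, r, rfl⟩ := hdec e
  have : C (w + r • e0) = 0 := by rw [map_add, map_smul, hCe0, hCW w hw, smul_zero, add_zero]
  rw [hC] at this
  exact sub_eq_zero.1 this

end Q141.Nbr.LA
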