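import Pool.Agent.Q141.Nbr.Form
import Pool.Agent.Q141.Nbr.LA
import Pool.Agent.H252R2.Lef7

set_option autoImplicit false
set_option linter.unusedSectionVars false

/-! Adding the missing faces of one dimension to a complex. -/

namespace Q141.Nbr.Miss

open ExteriorAlgebra Pool.Agent.Helper611 Pool.Agent.Helper611.ZBase Pool.Agent.Helper611.KVal
  Pool.Agent.Helper611.KRel
  Pool.Agent.Helper611.UStr Pool.Agent.H252R2.Lef1 Pool.Agent.H252R2.Lef2
  Pool.Agent.H252R2.Lef3 Pool.Agent.H252R2.Lef4 Pool.Agent.H252R2.Lef7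
  Pool.Agent.H252R2.CDNum Q141.Nbr.Wlp Q141.Nbr.Form

variable {V : Type} [Fintype V] [LinearOrder V]

open Classical in
/-- the missing faces with `r` vertices -/
noncomputable def mf (Γ : Cx V) (r : ℕ) : Finset (Finset V) :=
  Finset.univ.filter fun σ => σ.card = r ∧ σ ∉ Γ.faces ∧ ∀ τ, τ ⊂ σ → τ ∈ Γ.faces

lemma mem_mf (Γ : Cx V) (r : ℕ) (σ : Finset V) :
    σ ∈ mf Γ r ↔ σ.card = r ∧ σ ∉ Γ.faces ∧ ∀ τ, τ ⊂ σ → τ ∈ Γ.faces := by
  classical
  unfold mf
  rw [Finset.mem_filter]
  exact ⟨fun h => h.2, fun h => ⟨Finset.mem_univ _, h⟩⟩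

open Classical in
/-- the complex together with its missing faces with `r` vertices -/
noncomputable def plus (Γ : Cx V) (r : ℕ) : Cx V where
  faces := Γ.faces ∪ mf Γ r
  empty_mem := Finset.mem_union_left _ Γ.empty_mem
  down := by
    intro σ hσ τ hτ
    rcases Finset.mem_union.1 hσ with h | h
    · exact Finset.mem_union_left _ (Γ.down σ h τ hτ)
    · rcases eq_or_ne τ σ with h2 | h2
      · rw [h2]; exact hσ
      · exact Finset.mem_union_left _ (((mem_mf Γ r σ).1 h).2.2 τ
          (Finset.ssubset_iff_subset_ne.2 ⟨hτ, h2⟩))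

lemma mem_plus (Γ : Cx V) (r : ℕ) (σ : Finset V) :
    σ ∈ (plus Γ r).faces ↔ σ ∈ Γ.faces ∨ σ ∈ mf Γ r := by
  classical
  unfold plus
  exact Finset.mem_union

lemma mem_plus_ne (Γ : Cx V) (r : ℕ) (σ : Finset V) (h : σ.card ≠ r) :
    σ ∈ (plus Γ r).faces ↔ σ ∈ Γ.faces := by
  rw [mem_plus]
  exact ⟨fun h2 => h2.resolve_right fun h3 => h ((mem_mf Γ r σ).1 h3).1, Or.inl⟩

lemma fnum_plus_ne (Γ : Cx V) (r j : ℕ) (h : j ≠ r) : fnum (plus Γ r) j = fnum Γ j := by
  unfold fnum
  congr 2
  ext σ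
  rw [Finset.mem_filter, Finset.mem_filter]
  constructor
  · rintro ⟨h1, h2⟩
    exact ⟨(mem_plus_ne Γ r σ (by rw [h2]; exact h)).1 h1, h2⟩
  · rintro ⟨h1, h2⟩
    exact ⟨(mem_plus_ne Γ r σ (by rw [h2]; exact h)).2 h1, h2⟩

lemma fnum_plus (Γ : Cx V) (r : ℕ) : fnum (plus Γ r) r = fnum Γ r + (mf Γ r).card := by
  classical
  unfold fnum
  have h1 : (plus Γ r).faces.filter (fun F => F.card = r) =
      (Γ.faces.filter fun F => F.card = r) ∪ mf Γ r := by
    ext σ
    rw [Finset.mem_filter, Finset.mem_union, Finset.mem_filter, mem_plus]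
    constructor
    · rintro ⟨h1 | h1, h2⟩
      · exact Or.inl ⟨h1, h2⟩
      · exact Or.inr h1
    · rintro (h1 | h1)
      · exact ⟨Or.inl h1.1, h1.2⟩
      · exact ⟨Or.inr h1, ((mem_mf Γ r σ).1 h1).1⟩
  rw [h1, Finset.card_union_of_disjoint, Nat.cast_add]
  rw [Finset.disjoint_left]
  intro σ h2 h3
  exact ((mem_mf Γ r σ).1 h3).2.1 (Finset.mem_filter.1 h2).1

lemma hn_plus (Γ : Cx V) (d r : ℕ) :
    hn d (fnum (plus Γ r)) r = hn d (fnum Γ) r + (mf Γ r).card := by
  unfold hn
  rw [Finset.sum_range_succ, Finset.sum_range_succ, fnum_plus, Nat.sub_self, pow_zero,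
    Nat.choose_zero_right]
  have h1 : ∑ x ∈ Finset.range r, (-1 : ℤ) ^ (r - x) * (((d - x).choose (r - x) : ℕ) : ℤ) *
      fnum (plus Γ r) x = ∑ x ∈ Finset.range r, (-1 : ℤ) ^ (r - x) *
        (((d - x).choose (r - x) : ℕ) : ℤ) * fnum Γ x :=
    Finset.sum_congr rfl fun x hx => by
      rw [fnum_plus_ne Γ r x (by have := Finset.mem_range.1 hx; omega)]
  rw [h1]
  push_cast
  ring

lemma small_plus (Γ : Cx V) (d r : ℕ) (hr : r ≤ d) (hs : ∀ σ ∈ Γ.faces, σ.card ≤ d) :
    ∀ σ ∈ (plus Γ r).faces, σ.card ≤ d := by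
  intro σ hσ
  rcases (mem_plus Γ r σ).1 hσ with h | h
  · exact hs σ h
  · rw [((mem_mf Γ r σ).1 h).1]; exact hr

section alg
variable {K : Type} [Field K] {d : ℕ} {p : V → (Fin d → K)}

/-- acyclicity is inherited in low degrees -/
lemma acyV_plus (Γ : Cx V) (r s : ℕ) (A τ : Finset V) (j : ℕ) (hj : j < r)
    (h : AcyV (fun σ => σ ∈ Γ.faces) p s A τ j) :
    AcyV (fun σ => σ ∈ (plus Γ r).faces) p s A τ j := by
  intro c hc hv hd
  obtain ⟨b, hb, hb1, hb2⟩ := h c (fun σ hσ => by
      obtain ⟨h1, h2, h3⟩ := hc σ hσ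
      exact ⟨(mem_plus_ne Γ r σ (by omega)).1 h1, h2, h3⟩) hv (fun ρ hρ hPρ =>
        hd ρ hρ ((mem_plus Γ r ρ).2 (Or.inl hPρ)))
  refine ⟨b, fun σ hσ => ?_, hb1, fun ρ hρ hPρ => ?_⟩
  · obtain ⟨h1, h2⟩ := hb σ hσ
    exact ⟨(mem_plus Γ r σ).2 (Or.inl h1), h2⟩
  · rcases (mem_plus Γ r ρ).1 hPρ with h1 | h1
    · exact hb2 ρ hρ h1
    · have hcr := ((mem_mf Γ r ρ).1 h1).1
      have h2 : c ρ = 0 := by
        by_contra h3
        have := (hc ρ h3).2.2
        omega
      rw [h2]
      refine bd_eq_zero _ _ fun x hx => ?_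
      by_contra h3
      have h4 := (hb _ h3).2.2
      rw [Finset.card_insert_of_notMem hx] at h4
      omega

/-- the dimension of the stresses of the larger complex -/
lemma St_plus (Γ : Cx V) (r : ℕ) (hr : r ≤ d)
    (φ : Finset V → V → Module.Dual K (Fin d → K)) (hφ : Coord (plus Γ r) p φ)
    (hdual : Dual (fun σ => σ ∈ (plus Γ r).faces) p)
    (hacy : ∀ (τ : Finset V) (k s : ℕ), k < d →
      AcyP (fun σ => σ ∈ Γ.faces) (⋀[K]^s (Fin d → K)) τ k) (t : ℕ) (ht : t ≤ r) :
    (Module.finrank K (St (plus Γ r) p t) : ℤ) = hn d (fnum (plus Γ r)) t := by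
  classical
  have hP : Cvx (fun σ => σ ∈ (plus Γ r).faces) := fun _ ρ π _ h2 _ h4 => (plus Γ r).down π h4 ρ h2
  have hP0 : Cvx (fun σ => σ ∈ Γ.faces) := fun _ ρ π _ h2 _ h4 => Γ.down π h4 ρ h2
  have hdual0 : Dual (fun σ => σ ∈ Γ.faces) p := fun σ hσ hc v hv =>
    hdual σ ((mem_plus Γ r σ).2 (Or.inl hσ)) hc v hv
  have h1 := acyV_main (fun σ => σ ∈ Γ.faces) hP0 p d frk hdual0 hacy (d - t) t (by omega)
  have h2 := euler (fun σ => σ ∈ (plus Γ r).faces) hP p d t frk (by omega) hdual
    (fun k hk => acyV_plus Γ r t _ _ k (by omega) (h1 Finset.univ ∅ k hk)) t le_rfl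
  have h3 : Module.finrank K (St (plus Γ r) p t) =
      Module.finrank K (ZZ (fun σ => σ ∈ (plus Γ r).faces) p t t) :=
    le_antisymm (St_le hφ t) (St_ge hφ t)
  rw [h3, h2]
  unfold hn
  refine Finset.sum_congr rfl fun j _ => ?_
  congr 1
  unfold fnum
  congr 2
  ext σ
  simp

lemma coord_sub (Γ : Cx V) (r : ℕ) (φ : Finset V → V → Module.Dual K (Fin d → K))
    (hφ : Coord (plus Γ r) p φ) : Coord Γ p φ :=
  ⟨fun σ hσ => hφ.one σ ((mem_plus Γ r σ).2 (Or.inl hσ)),
    fun σ hσ => hφ.zero σ ((mem_plus Γ r σ).2 (Or.inl hσ))⟩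

/-- in low degrees the stresses agree -/
lemma St_eq (Γ : Cx V) (r t : ℕ) (ht : t < r) : St (plus Γ r) p t = St Γ p t := by
  apply le_antisymm
  · rintro l ⟨h1, h2⟩
    refine ⟨fun σ hσ => ?_, fun ρ hρ => h2 ρ ((mem_plus Γ r ρ).2 (Or.inl hρ))⟩
    obtain ⟨h3, h4⟩ := h1 σ hσ
    exact ⟨(mem_plus_ne Γ r σ (by omega)).1 h3, h4⟩
  · rintro l ⟨h1, h2⟩
    refine ⟨fun σ hσ => ?_, fun ρ hρ => ?_⟩
    · obtain ⟨h3, h4⟩ := h1 σ hσ
      exact ⟨(mem_plus Γ r σ).2 (Or.inl h3), h4⟩
    · rcases (mem_plus Γ r ρ).1 hρ with h3 | h3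
      · exact h2 ρ h3
      · have hcr := ((mem_mf Γ r ρ).1 h3).1
        rw [Finset.sum_eq_zero]
        · exact Submodule.zero_mem _
        · intro x hx
          have h4 : l (insert x ρ) = 0 := by
            by_contra h5
            have h6 := (h1 _ h5).2
            rw [Finset.card_insert_of_notMem (Finset.mem_compl.1 hx)] at h6
            omega
          rw [h4, zero_smul]

lemma D_eq (Γ : Cx V) (r t : ℕ) (ht : t ≤ r) (φ : Finset V → V → Module.Dual K (Fin d → K))
    (l : Finset V → K) (hl : ∀ σ, l σ ≠ 0 → σ.card = t) (x : V) :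
    D (plus Γ r) p φ x l = D Γ p φ x l := by
  funext σ
  rw [D_apply, D_apply]
  unfold mu
  by_cases hx : x ∈ σ
  · rw [if_pos hx, if_pos hx]
    by_cases h1 : σ ∈ Γ.faces
    · rw [if_pos h1, if_pos ((mem_plus Γ r σ).2 (Or.inl h1))]
    · rw [if_neg h1]
      by_cases h2 : σ ∈ (plus Γ r).faces
      · rw [if_pos h2]
        have h3 := ((mem_plus Γ r σ).1 h2).resolve_left h1
        have hcr := ((mem_mf Γ r σ).1 h3).1
        rw [Finset.sum_eq_zero, map_zero, neg_zero]
        intro y hy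
        have h4 : l (insert y σ) = 0 := by
          by_contra h5
          have h6 := hl _ h5
          rw [Finset.card_insert_of_notMem (Finset.mem_compl.1 hy)] at h6
          omega
        rw [h4, zero_smul]
      · rw [if_neg h2]
  · rw [if_neg hx, if_neg hx]

/-- The main point: the space of stresses of degree `k + 2` of the complex with the missing faces
added does not have codimension one. -/
theorem codim_ne_one (Γ : Cx V) (k : ℕ)
    (φ : Finset V → V → Module.Dual K (Fin d → K)) (hφ : Coord (plus Γ (k + 2)) p φ)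
    (b : V → K) (β : (Finset V → K) → (Finset V → K) → K) (hA : Alg Γ p φ k b β)
    (hdim : Module.finrank K (St Γ p (k + 1)) = Module.finrank K (St Γ p k)) :
    Module.finrank K (St (plus Γ (k + 2)) p (k + 2)) + 1 ≠
      Module.finrank K (St Γ p (k + 1)) := by
  classical
  intro hcon
  have hφ0 := coord_sub Γ (k + 2) φ hφ
  have hE : St (plus Γ (k + 2)) p (k + 1) = St Γ p (k + 1) := St_eq Γ (k + 2) (k + 1) (by omega)
  -- the maps on the stresses of degree `k + 1`
  let Dv : V → (St Γ p (k + 1) →ₗ[K] St Γ p k) := fun v =>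
    (D Γ p φ v).restrict fun l hl => D_mem hφ0 k l hl v
  let DW : St Γ p (k + 1) →ₗ[K] St Γ p k :=
    (Dw Γ p φ b).restrict fun l hl => Dw_mem hφ0 b k l hl
  have hDW : ∀ x, (DW x : Finset V → K) = Dw Γ p φ b x.1 := fun x => rfl
  have hDv : ∀ v x, (Dv v x : Finset V → K) = D Γ p φ v x.1 := fun v x => rfl
  have hinj : Function.Injective DW := by
    rw [← LinearMap.ker_eq_bot, LinearMap.ker_eq_bot']
    intro x hx
    apply Subtype.ext
    exact hA.inj x.1 x.2 (by rw [← hDW, hx]; rfl)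
  let W := LinearMap.linearEquivOfInjective DW hinj hdim
  have hW : ∀ x, W x = DW x := fun x => LinearMap.linearEquivOfInjective_apply hinj hdim x
  let M : V → (St Γ p (k + 1) →ₗ[K] St Γ p (k + 1)) := fun v => W.symm.toLinearMap ∘ₗ Dv v
  have hM : ∀ v x, DW (M v x) = Dv v x := by
    intro v x
    rw [← hW]
    exact W.apply_symm_apply _
  have hM' : ∀ v x, Dw Γ p φ b (M v x).1 = D Γ p φ v x.1 := fun v x =>
    congrArg Subtype.val (hM v x)
  -- the form
  let B : St Γ p (k + 1) →ₗ[K] St Γ p (k + 1) →ₗ[K] K :=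
    LinearMap.mk₂ K (fun x y => β x.1 y.1)
      (fun x x' y => hA.add x.1 x.2 x'.1 x'.2 y.1 y.2)
      (fun r x y => hA.smul r x.1 x.2 y.1 y.2)
      (fun x y y' => by
        show β x.1 (y.1 + y'.1) = β x.1 y.1 + β x.1 y'.1
        rw [hA.sym x.1 x.2 _ (Submodule.add_mem _ y.2 y'.2), hA.add y.1 y.2 y'.1 y'.2 x.1 x.2,
          hA.sym y.1 y.2 x.1 x.2, hA.sym y'.1 y'.2 x.1 x.2])
      (fun r x y => by
        show β x.1 (r • y.1) = r • β x.1 y.1
        rw [hA.sym x.1 x.2 _ (Submodule.smul_mem _ r y.2), hA.smul r y.1 y.2 x.1 x.2,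
          hA.sym y.1 y.2 x.1 x.2, smul_eq_mul])
  have hB : ∀ x y, B x y = β x.1 y.1 := fun x y => rfl
  have hBsym : ∀ x y, B x y = B y x := fun x y => hA.sym x.1 x.2 y.1 y.2
  have hBnd : ∀ x, (∀ y, B x y = 0) → x = 0 := by
    intro x hx
    apply Subtype.ext
    exact hA.nondeg x.1 x.2 fun y hy => hx ⟨y, hy⟩
  have hBadj : ∀ v x y, B (M v x) y = B x (M v y) := by
    intro v x y
    exact hA.adj v x.1 x.2 (M v x).1 (M v x).2 (hM' v x) y.1 y.2 (M v y).1 (M v y).2 (hM' v y)
  -- the derivative from degree `k + 2`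
  have hDp : ∀ f ∈ St (plus Γ (k + 2)) p (k + 2), ∀ v,
      D (plus Γ (k + 2)) p φ v f ∈ St Γ p (k + 1) := by
    intro f hf v
    rw [← hE]
    exact D_mem hφ (k + 1) f hf v
  have hDD : ∀ g ∈ St Γ p (k + 1), ∀ v, D (plus Γ (k + 2)) p φ v g = D Γ p φ v g := fun g hg v =>
    D_eq Γ (k + 2) (k + 1) (by omega) φ g (fun σ hσ => (hg.1 σ hσ).2) v
  have hcomm : ∀ f ∈ St (plus Γ (k + 2)) p (k + 2), ∀ v w,
      D Γ p φ v (D (plus Γ (k + 2)) p φ w f) = D Γ p φ w (D (plus Γ (k + 2)) p φ v f) := by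
    intro f hf v w
    rw [← hDD _ (hDp f hf w), ← hDD _ (hDp f hf v)]
    exact D_comm hφ k f hf v w
  let DF : St (plus Γ (k + 2)) p (k + 2) →ₗ[K] St Γ p (k + 1) :=
    (Dw (plus Γ (k + 2)) p φ b).restrict fun l hl => by
      rw [← hE]; exact Dw_mem hφ b (k + 1) l hl
  have hDF : ∀ f, (DF f : Finset V → K) = Dw (plus Γ (k + 2)) p φ b f.1 := fun f => rfl
  -- `D_w f = M_v D_w ...`
  have hMD : ∀ (f : St (plus Γ (k + 2)) p (k + 2)) (v : V),
      (M v (DF f) : Finset V → K) = D (plus Γ (k + 2)) p φ v f.1 := by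
    intro f v
    have h1 : M v (DF f) = ⟨D (plus Γ (k + 2)) p φ v f.1, hDp f.1 f.2 v⟩ := by
      apply hinj
      rw [hM]
      apply Subtype.ext
      rw [hDv, hDW, hDF, Dw_apply, Dw_apply, map_sum]
      refine Finset.sum_congr rfl fun w _ => ?_
      rw [map_smul]
      congr 1
      exact hcomm f.1 f.2 v w
    rw [h1]
  have hDFinj : Function.Injective DF := by
    rw [← LinearMap.ker_eq_bot, LinearMap.ker_eq_bot']
    intro f hf
    apply Subtype.ext
    refine D_inj (φ := φ) (k + 1) f.1 f.2 fun v => ?_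
    rw [← hMD f v, hf, map_zero]
    rfl
  have hrange : Module.finrank K (LinearMap.range DF) + 1 =
      Module.finrank K (St Γ p (k + 1)) := by
    rw [LinearMap.finrank_range_of_inj hDFinj]
    exact hcon
  have hcomW : ∀ v w, ∀ x ∈ LinearMap.range DF, M v (M w x) = M w (M v x) := by
    rintro v w _ ⟨f, rfl⟩
    apply hinj
    rw [hM, hM]
    apply Subtype.ext
    rw [hDv, hDv, hMD, hMD]
    exact hcomm f.1 f.2 v w
  have hcom : ∀ v w x, M v (M w x) = M w (M v x) := fun v w x =>
    LA.comm_of_codim_one B hBsym hBnd (M v) (M w) (hBadj v) (hBadj w) _ hrange (hcomW v w) x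
  -- then the derivative is onto
  have hsurj : Function.Surjective DF := by
    intro x
    -- the value of `M_v x` on `σ \ v`
    have hval : ∀ (σ : Finset V) (v w : V), v ∈ σ → w ∈ σ →
        (M v x).1 (σ.erase v) = (M w x).1 (σ.erase w) := by
      intro σ v w hv hw
      by_cases hvw : v = w
      · rw [hvw]
      · have h1 : D Γ p φ w (M v x).1 = D Γ p φ v (M w x).1 := by
          rw [← hM' w (M v x), ← hM' v (M w x), hcom w v x]
        have h2 := congrFun h1 ((σ.erase v).erase w)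
        rw [D_apply, D_apply, mu_out Γ p φ _ _ w (Finset.notMem_erase _ _),
          Finset.insert_erase (Finset.mem_erase.2 ⟨Ne.symm hvw, hw⟩),
          Finset.erase_right_comm, mu_out Γ p φ _ _ v (Finset.notMem_erase _ _),
          Finset.insert_erase (Finset.mem_erase.2 ⟨hvw, hv⟩)] at h2
        exact h2
    let F : Finset V → K := fun σ =>
      if h : σ.card = k + 2 ∧ σ.Nonempty then (M h.2.choose x).1 (σ.erase h.2.choose) else 0
    have hF : ∀ (σ : Finset V) (v : V), σ.card = k + 2 → v ∈ σ → F σ = (M v x).1 (σ.erase v) := by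
      intro σ v hc hv
      have hne : σ.card = k + 2 ∧ σ.Nonempty := ⟨hc, ⟨v, hv⟩⟩
      show (if h : σ.card = k + 2 ∧ σ.Nonempty then
        (M h.2.choose x).1 (σ.erase h.2.choose) else 0) = _
      rw [dif_pos hne]
      exact hval σ _ v hne.2.choose_spec hv
    have hF0 : ∀ σ : Finset V, σ.card ≠ k + 2 → F σ = 0 := fun σ hc => dif_neg fun h => hc h.1
    have hFins : ∀ (ρ : Finset V) (y : V), ρ.card = k + 1 → y ∉ ρ →
        F (insert y ρ) = (M y x).1 ρ := by
      intro ρ y hc hy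
      rw [hF (insert y ρ) y (by rw [Finset.card_insert_of_notMem hy, hc])
        (Finset.mem_insert_self _ _), Finset.erase_insert hy]
    -- the relation between the `M_v x`
    have hMrel : ∀ (ρ : Finset V) (η : Module.Dual K (Fin d → K)),
        ∑ y, η (p y) * (M y x).1 ρ = 0 := by
      intro ρ η
      have h1 : ∑ y, η (p y) • M y x = 0 := by
        apply hinj
        rw [map_sum, map_zero]
        apply Subtype.ext
        rw [AddSubmonoidClass.coe_finsetSum]
        show _ = (0 : Finset V → K)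
        rw [← D_rel hφ0 (k + 1) x.1 x.2 η]
        refine Finset.sum_congr rfl fun y _ => ?_
        rw [map_smul, hM]
        rfl
      have h2 := congrFun (congrArg Subtype.val h1) ρ
      rw [AddSubmonoidClass.coe_finsetSum, Finset.sum_apply] at h2
      exact h2
    have hFS : F ∈ St (plus Γ (k + 2)) p (k + 2) := by
      refine ⟨fun σ hσ => ?_, fun ρ hρ => ?_⟩
      · have hc : σ.card = k + 2 := by
          by_contra h
          exact hσ (hF0 σ h)
        refine ⟨?_, hc⟩
        rw [mem_plus, mem_mf]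
        by_cases h1 : σ ∈ Γ.faces
        · exact Or.inl h1
        · refine Or.inr ⟨hc, h1, fun τ hτ => ?_⟩
          obtain ⟨hsub, hne⟩ := Finset.ssubset_iff_subset_ne.1 hτ
          obtain ⟨v, hv, hvτ⟩ := Finset.exists_of_ssubset hτ
          rw [hF σ v hc hv] at hσ
          refine Γ.down _ ((M v x).2.1 _ hσ).1 _ fun w hw => Finset.mem_erase.2 ⟨?_, hsub hw⟩
          rintro rfl
          exact hvτ hw
      · by_cases hc : ρ.card = k + 1
        · have h1 : ∑ y ∈ ρᶜ, F (insert y ρ) • p y = ∑ y ∈ ρᶜ, (M y x).1 ρ • p y :=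
            Finset.sum_congr rfl fun y hy => by rw [hFins ρ y hc (Finset.mem_compl.1 hy)]
          have h2 : ∑ y, (M y x).1 ρ • p y = 0 := by
            rw [← Module.forall_dual_apply_eq_zero_iff K]
            intro η
            rw [map_sum, ← hMrel ρ η]
            exact Finset.sum_congr rfl fun y _ => by rw [map_smul, smul_eq_mul, mul_comm]
          rw [← Finset.sum_add_sum_compl ρ] at h2
          rw [h1, eq_neg_of_add_eq_zero_right h2]
          exact Submodule.neg_mem _ (Submodule.sum_mem _ fun z hz => Submodule.smul_mem _ _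
            (Submodule.subset_span ⟨z, hz, rfl⟩))
        · rw [Finset.sum_eq_zero]
          · exact Submodule.zero_mem _
          · intro y hy
            rw [hF0, zero_smul]
            rw [Finset.card_insert_of_notMem (Finset.mem_compl.1 hy)]
            omega
    have hDF' : ∀ v, D (plus Γ (k + 2)) p φ v F = (M v x).1 := by
      -- the difference vanishes off the star and satisfies the linear relations
      have hout : ∀ (σ : Finset V) (v : V), v ∉ σ →
          D (plus Γ (k + 2)) p φ v F σ = (M v x).1 σ := by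
        intro σ v hv
        rw [D_apply, mu_out _ p φ _ _ v hv]
        by_cases hc : σ.card = k + 1
        · exact hFins σ v hc hv
        · rw [hF0 _ (by rw [Finset.card_insert_of_notMem hv]; omega)]
          by_contra h
          exact hc ((M v x).2.1 σ (Ne.symm h)).2
      intro v
      funext σ
      by_cases hv : v ∈ σ
      · by_cases hσ : σ ∈ (plus Γ (k + 2)).faces
        · have h1 := uniq hφ σ hσ
            (fun z => D (plus Γ (k + 2)) p φ z F σ - (M z x).1 σ) ?_ v hv
          · exact sub_eq_zero.1 h1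
          · rw [← Module.forall_dual_apply_eq_zero_iff K]
            intro η
            have h2 := congrFun (D_rel hφ (k + 2) F hFS η) σ
            rw [Finset.sum_apply] at h2
            have h3 := hMrel σ η
            have h4 : ∑ y, η (p y) * (D (plus Γ (k + 2)) p φ y F σ - (M y x).1 σ) = 0 := by
              have h5 : ∑ y, η (p y) * (D (plus Γ (k + 2)) p φ y F σ - (M y x).1 σ) =
                  ∑ y, (η (p y) • D (plus Γ (k + 2)) p φ y F) σ -
                    ∑ y, η (p y) * (M y x).1 σ := by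
                rw [← Finset.sum_sub_distrib]
                refine Finset.sum_congr rfl fun y _ => ?_
                rw [Pi.smul_apply, smul_eq_mul]
                ring
              rw [h5, h2, h3]
              show (0 : K) - 0 = 0
              ring
            rw [← Finset.sum_add_sum_compl σ] at h4
            have h5 : ∑ y ∈ σᶜ, η (p y) * (D (plus Γ (k + 2)) p φ y F σ - (M y x).1 σ) = 0 :=
              Finset.sum_eq_zero fun y hy => by
                rw [hout σ y (Finset.mem_compl.1 hy), sub_self, mul_zero]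
            rw [h5, add_zero] at h4
            rw [map_sum, ← h4]
            exact Finset.sum_congr rfl fun y _ => by rw [map_smul, smul_eq_mul, mul_comm]
        · rw [D_apply, mu_not _ p φ _ (fun σ h => (hFS.1 σ h).1) σ v hσ]
          by_contra h
          exact hσ ((mem_plus Γ _ σ).2 (Or.inl ((M v x).2.1 σ (Ne.symm h)).1))
      · exact hout σ v hv
    refine ⟨⟨F, hFS⟩, ?_⟩
    apply Subtype.ext
    rw [hDF, Dw_apply]
    have h1 : ∑ v, b v • M v x = x := by
      apply hinj
      rw [map_sum]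
      apply Subtype.ext
      rw [AddSubmonoidClass.coe_finsetSum, hDW, Dw_apply]
      refine Finset.sum_congr rfl fun v _ => ?_
      rw [map_smul, hM]
      rfl
    have h2 := congrArg Subtype.val h1
    rw [AddSubmonoidClass.coe_finsetSum] at h2
    rw [← h2]
    refine Finset.sum_congr rfl fun v _ => ?_
    rw [hDF' v]
    rfl
  have h1 := LinearMap.range_eq_top.2 hsurj
  rw [h1, finrank_top] at hrange
  omega

end alg

end Q141.Nbr.Miss
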