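import Pool.Agent.H252R2.Lef4

set_option autoImplicit false
set_option linter.unusedSectionVars false

/-! The middle Lefschetz property and the maps between functions and stresses. -/

namespace Q141.Nbr.Wlp

open Pool.Agent.Helper611 Pool.Agent.Helper611.ZBase Pool.Agent.Helper611.KVal
  Pool.Agent.Helper611.UStr Pool.Agent.H252R2.Lef1 Pool.Agent.H252R2.Lef2
  Pool.Agent.H252R2.Lef3 Pool.Agent.H252R2.Lef4 MvPolynomial

variable {V : Type} [Fintype V] [LinearOrder V] {K : Type} [Field K] {d : ℕ}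
  {Γ : Cx V} {p : V → (Fin d → K)} {φ : Finset V → V → Module.Dual K (Fin d → K)}
  {e : Fin d → K}

lemma MM_pos (n m : ℕ) (h : n = m + 1) : MM Γ φ e n = NN Γ φ e m := by
  subst h
  rfl

/-- the generic linear form is injective on the lower half -/
theorem wlp [CharP K 2] (hφ : Coord Γ p φ) (hz : Nz Γ φ e) (h : ℕ → ℕ)
    (hst : ∀ t, t ≤ d → Module.finrank K (St Γ p t) ≤ h t)
    (hsum : ∑ t ∈ Finset.range (d + 1), h t = Fintype.card (Fc Γ d))
    (hsym : ∀ t, t ≤ d → h t = h (d - t))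
    (l : Finset V → K) (hl0 : ∀ F ∈ Γ.faces, F.card = d → l F * perm p F = 1)
    (T : Module.Dual K (Rg Γ d K)) (hT : ∀ x ∈ MM Γ φ e d, T x = 0)
    (hTl : ∀ F : Fc Γ d, T (xm Γ φ e (ind F.1)) = l F.1)
    (b : V → K) (hgen : Gen p b) (a : ℕ) (ha : 2 * a + 1 ≤ d)
    (g : Rg Γ d K) (hg : g ∈ NN Γ φ e a)
    (hℓg : evx Γ φ e (∑ v, b v • X v) * g ∈ NN Γ φ e a) : g ∈ MM Γ φ e a := by
  classical
  have hl1 : ∀ F ∈ Γ.faces, F.card = d → l F ≠ 0 := by
    intro F h1 h2 h3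
    have := hl0 F h1 h2
    rw [h3, zero_mul] at this
    exact zero_ne_one this
  have hT2 : ∀ σ ∈ Γ.faces, σ.card = d →
      T (xm Γ φ e (ind σ)) = perm p σ * T (xm Γ φ e (ind σ)) ^ 2 := by
    intro σ h1 h2
    rw [hTl ⟨σ, h1, h2⟩]
    have := hl0 σ h1 h2
    linear_combination (-(l σ)) * this
  obtain ⟨f, hf1, hf2⟩ := exists_hom a g hg
  refine pd hφ hz h hst hsum hsym T hT (fun F => by rw [hTl]; exact hl1 F.1 F.2.1 F.2.2) a
    (by omega) g ?_
  have hMM : MM Γ φ e (d + 1 - a) = NN Γ φ e (d - a) := MM_pos _ _ (by omega)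
  intro x hx
  rw [hMM] at hx
  induction hx using Submodule.span_induction with
  | mem x hx =>
    obtain ⟨A, hA, rfl⟩ := hx
    obtain ⟨m1, m2, h1, h2, h3⟩ := split_deg (d + 1) (d - 1 - 2 * a) (A + A)
      (by rw [map_add, hA]; omega)
    obtain ⟨I1, hI1⟩ := cont_surj (d + 1) m1 h2
    have hI2 : m1 = Finsupp.single (I1 0) 1 + cont (fun i : Fin d => I1 i.succ) := by
      rw [← hI1, ← cont_cons]
      congr 1
      funext i
      refine Fin.cases ?_ (fun j => ?_) i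
      · rfl
      · rfl
    have h4 := expand_sq hφ hT hT2 b a f hf1 m2 (by omega)
    have h5 : Dg Γ φ e T ((∑ v, b v • X v) * (f ^ 2 * monomial m2 1)) = 0 := by
      rw [Dg_apply, map_mul (evx Γ φ e), map_mul (evx Γ φ e), map_pow (evx Γ φ e), evx_monomial,
        one_smul, hf2]
      apply hT
      have h6 : evx Γ φ e (∑ v, b v • X v) * (g ^ 2 * xm Γ φ e m2) =
          (evx Γ φ e (∑ v, b v • X v) * g) * (g * xm Γ φ e m2) := by ring
      rw [h6]
      have h7 := xm_mem (Γ := Γ) (φ := φ) (e := e) m2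
      rw [h3] at h7
      have h8 := NN_mul _ _ _ _ hℓg (NN_mul _ _ _ _ hg h7)
      have h9 : MM Γ φ e d = NN Γ φ e (a + (a + (d - 1 - 2 * a))) := MM_pos _ _ (by omega)
      rw [h9]
      exact h8
    rw [h5] at h4
    have h6 := hgen _ h4.symm (I1 0, fun i : Fin d => I1 i.succ)
    have h7 : Finsupp.single (I1 0) 1 + cont (fun i : Fin d => I1 i.succ) + m2 = A + A := by
      rw [← hI2, ← h1]
    simp only [h7] at h6
    rw [if_pos (ev_double A), hf_double, Dg_apply, map_mul (evx Γ φ e), evx_monomial, one_smul,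
      hf2] at h6
    rw [mul_comm]
    exact h6
  | zero => rw [zero_mul, map_zero]
  | add x y _ _ hx hy => rw [add_mul, map_add, hx, hy, add_zero]
  | smul r x _ hx => rw [smul_mul_assoc, map_smul, hx, smul_zero]

/-- multiplication followed by the degree functional -/
noncomputable def mT (T : Module.Dual K (Rg Γ d K)) : Rg Γ d K →ₗ[K] Module.Dual K (Rg Γ d K) :=
  (LinearMap.mul K (Rg Γ d K)).compr₂ T

lemma mT_apply (T : Module.Dual K (Rg Γ d K)) (a x : Rg Γ d K) : mT T a x = T (a * x) := rfl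

lemma mT_van (T : Module.Dual K (Rg Γ d K)) (hT : ∀ x ∈ MM Γ φ e d, T x = 0) (s t : ℕ)
    (hst : s + t = d) (a : Rg Γ d K) (ha : a ∈ NN Γ φ e s) (x : Rg Γ d K) (hx : x ∈ MM Γ φ e t) :
    T (a * x) = 0 := by
  match t with
  | 0 =>
    rw [MM_zero, Submodule.mem_bot] at hx
    rw [hx, mul_zero, map_zero]
  | t + 1 =>
    rw [MM_succ] at hx
    apply hT
    rw [MM_pos d (s + t) (by omega)]
    exact NN_mul _ _ _ _ ha hx

/-- the stress of an element -/
noncomputable def ps (Γ : Cx V) (φ : Finset V → V → Module.Dual K (Fin d → K)) (e : Fin d → K)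
    (T : Module.Dual K (Rg Γ d K)) (t : ℕ) : Rg Γ d K →ₗ[K] (Finset V → K) :=
  (stf Γ φ e t).comp (mT T)

lemma ps_apply (T : Module.Dual K (Rg Γ d K)) (t : ℕ) (a : Rg Γ d K) :
    ps Γ φ e T t a = stf Γ φ e t (mT T a) := rfl

lemma ps_St (hφ : Coord Γ p φ) (T : Module.Dual K (Rg Γ d K))
    (hT : ∀ x ∈ MM Γ φ e d, T x = 0) (s t : ℕ) (hst : s + t = d) (a : Rg Γ d K)
    (ha : a ∈ NN Γ φ e s) : ps Γ φ e T t a ∈ St Γ p t :=
  stf_St hφ t _ fun x hx => mT_van T hT s t hst a ha x hx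

lemma ps_zero (T : Module.Dual K (Rg Γ d K))
    (hT : ∀ x ∈ MM Γ φ e d, T x = 0) (s t : ℕ) (hst : s + t = d) (a : Rg Γ d K)
    (ha : a ∈ MM Γ φ e s) : ps Γ φ e T t a = 0 := by
  funext σ
  rw [ps_apply]
  by_cases h : σ.card = t
  · rw [stf_pos t _ σ h, mT_apply, mul_comm]
    refine mT_van T hT t s (by omega) _ ?_ a ha
    have := xm_mem (Γ := Γ) (φ := φ) (e := e) (ind σ)
    rwa [ind_degree, h] at this
  · exact stf_neg t _ σ h

/-- derivative of the stress of a functional -/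
lemma D_stf (hφ : Coord Γ p φ) (t : ℕ) (T : Module.Dual K (Rg Γ d K))
    (hT : ∀ x ∈ MM Γ φ e (t + 1), T x = 0) (v : V) :
    D Γ p φ v (stf Γ φ e (t + 1) T) = stf Γ φ e t (T.comp (LinearMap.mulLeft K (xx Γ φ e v))) := by
  funext σ
  rw [D_apply]
  have hS := stf_St hφ (t + 1) T hT
  by_cases hc : σ.card = t
  · rw [stf_pos t _ σ hc, LinearMap.comp_apply, LinearMap.mulLeft_apply]
    by_cases hv : v ∈ σ
    · by_cases hσ : σ ∈ Γ.faces
      · rw [mu_in Γ p φ _ σ v hv hσ]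
        have h1 := rel_T hφ (t + 1) T hT (ind σ) (by rw [ind_degree, hc]) (φ σ v)
        rw [← Finset.sum_add_sum_compl σ, Finset.sum_eq_single_of_mem v hv,
          hφ.one σ hσ v hv, one_mul] at h1
        · rw [map_sum]
          have h2 : ∑ y ∈ σᶜ, (φ σ v) (stf Γ φ e (t + 1) T (insert y σ) • p y) =
              ∑ y ∈ σᶜ, (φ σ v) (p y) * T (xm Γ φ e (ind σ + Finsupp.single y 1)) := by
            refine Finset.sum_congr rfl fun y hy => ?_
            have hy' := Finset.mem_compl.1 hy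
            rw [stf_pos (t + 1) _ _ (by rw [Finset.card_insert_of_notMem hy', hc]),
              ind_insert _ _ hy', map_smul, smul_eq_mul, mul_comm]
          rw [h2, ← xm_single (Γ := Γ) (φ := φ) (e := e) v, ← xm_add, add_comm _ (ind σ)]
          linear_combination (-1 : K) * h1
        · intro w hw hwv
          rw [hφ.zero σ hσ v hv w hw hwv, zero_mul]
      · rw [mu_not Γ p φ _ (fun σ h => (hS.1 σ h).1) σ v hσ, xm_not (ind σ)
          (by rwa [ind_support]), mul_zero, map_zero]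
    · rw [mu_out Γ p φ _ σ v hv, stf_pos (t + 1) _ _
        (by rw [Finset.card_insert_of_notMem hv, hc]), ind_insert _ _ hv, xm_add, xm_single,
        mul_comm]
  · rw [stf_neg t _ σ hc]
    by_contra h
    have h2 := (D_mem hφ t _ hS v).1 σ h
    exact hc h2.2

lemma D_ps (hφ : Coord Γ p φ) (T : Module.Dual K (Rg Γ d K))
    (hT : ∀ x ∈ MM Γ φ e d, T x = 0) (s t : ℕ) (hst : s + (t + 1) = d) (a : Rg Γ d K)
    (ha : a ∈ NN Γ φ e s) (v : V) :
    D Γ p φ v (ps Γ φ e T (t + 1) a) = ps Γ φ e T t (xx Γ φ e v * a) := by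
  rw [ps_apply, D_stf hφ t _ (fun x hx => mT_van T hT s (t + 1) hst a ha x hx), ps_apply]
  congr 1
  ext x
  show T (a * (xx Γ φ e v * _)) = T (xx Γ φ e v * a * _)
  congr 1
  ring

/-- the kernel -/
lemma ps_ker (hφ : Coord Γ p φ) (hz : Nz Γ φ e) (h : ℕ → ℕ)
    (hst : ∀ t, t ≤ d → Module.finrank K (St Γ p t) ≤ h t)
    (hsum : ∑ t ∈ Finset.range (d + 1), h t = Fintype.card (Fc Γ d))
    (hsym : ∀ t, t ≤ d → h t = h (d - t)) (T : Module.Dual K (Rg Γ d K))
    (hT : ∀ x ∈ MM Γ φ e d, T x = 0) (hT0 : ∀ F : Fc Γ d, T (xm Γ φ e (ind F.1)) ≠ 0)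
    (s t : ℕ) (hd : s + t = d) (a : Rg Γ d K)
    (ha : a ∈ NN Γ φ e s) (h0 : ps Γ φ e T t a = 0) : a ∈ MM Γ φ e s := by
  refine pd hφ hz h hst hsum hsym T hT hT0 s (by omega) a ?_
  have e1 : d + 1 - s = t + 1 := by omega
  rw [e1]
  intro x hx
  have h1 := stf_ker hφ t (mT T a) (fun x hx => mT_van T hT s t hd a ha x hx) h0 x hx
  rw [mul_comm]
  exact h1

/-- every stress comes from an element -/
lemma ps_surj (hφ : Coord Γ p φ) (hz : Nz Γ φ e) (h : ℕ → ℕ)
    (hst : ∀ t, t ≤ d → Module.finrank K (St Γ p t) ≤ h t)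
    (hsum : ∑ t ∈ Finset.range (d + 1), h t = Fintype.card (Fc Γ d))
    (hsym : ∀ t, t ≤ d → h t = h (d - t)) (T : Module.Dual K (Rg Γ d K))
    (hT : ∀ x ∈ MM Γ φ e d, T x = 0) (hT0 : ∀ F : Fc Γ d, T (xm Γ φ e (ind F.1)) ≠ 0)
    (s t : ℕ) (hd : s + t = d) (l : Finset V → K) (hl : l ∈ St Γ p t) :
    ∃ a ∈ NN Γ φ e s, ps Γ φ e T t a = l := by
  have h1 := KDim.fr_map K (ps Γ φ e T t) (NN Γ φ e s)
  have h2 : (NN Γ φ e s).map (ps Γ φ e T t) ≤ St Γ p t := by
    rintro _ ⟨a, ha, rfl⟩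
    exact ps_St hφ T hT s t hd a ha
  have h3 : (NN Γ φ e s ⊓ LinearMap.ker (ps Γ φ e T t) : Submodule K _) ≤ MM Γ φ e s := by
    rintro a ⟨ha, ha2⟩
    exact ps_ker hφ hz h hst hsum hsym T hT hT0 s t hd a ha ha2
  have h4 := Submodule.finrank_mono h3
  have h5 := MM_dim hφ hz h hst hsum s (by omega)
  have h6 := MM_dim hφ hz h hst hsum (s + 1) (by omega)
  rw [MM_succ, Finset.sum_range_succ] at h6
  have h7 := hst t (by omega)
  have h8 := hsym s (by omega)
  have e1 : d - s = t := by omega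
  rw [e1] at h8
  have h9 : (NN Γ φ e s).map (ps Γ φ e T t) = St Γ p t :=
    Submodule.eq_of_le_of_finrank_le h2 (by omega)
  rw [← h9] at hl
  obtain ⟨a, ha, rfl⟩ := hl
  exact ⟨a, ha, rfl⟩

end Q141.Nbr.Wlp
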